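import Pool.Agent.N236.UR.Stm6

/-!
Project UR (helper236), leaf EXT1 (helper186): extension of the `p`-adic absolute value.
-/

set_option autoImplicit false

namespace Pool.Agent.N186.UR.EXT1

open Pool.Agent.N236.UR Pool.Agent.N236.UB

theorem t_ext1 : Pool.Agent.N236.UR.S_EXT1 := by
  intro p _ K₀ L _ _ _ _ σ
  let alg : Algebra K₀ (PadicAlgCl p) := ((algebraMap ℚ_[p] (PadicAlgCl p)).comp σ).toAlgebra
  let j : L →ₐ[K₀] PadicAlgCl p := IsAlgClosed.lift
  refine ⟨{ toFun := fun x => ‖j x‖
            map_mul' := fun x y => by rw [map_mul, norm_mul]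
            nonneg' := fun x => norm_nonneg _
            eq_zero' := fun x => by rw [norm_eq_zero, map_eq_zero]
            add_le' := fun x y => by rw [map_add]; exact norm_add_le _ _ }, ?_, ?_⟩
  · intro x y
    show ‖j (x + y)‖ ≤ max ‖j x‖ ‖j y‖
    rw [map_add]
    exact PadicAlgCl.isNonarchimedean p (j x) (j y)
  · intro x
    show ‖j (algebraMap K₀ L x)‖ = ‖σ x‖
    rw [j.commutes]
    exact PadicAlgCl.norm_extends p (σ x)

end Pool.Agent.N186.UR.EXT1
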